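import Pool.Agent.TH815.LR3

/-!
# Chromatic number and rank for graphs without `K_{s,t}`

Let `G` be a finite graph whose adjacency matrix has real rank at most `r`, `r ≥ 2`, and let
`2 ≤ s ≤ t`. If `G` does not contain `K_{s,t}` (no `s` vertices have `t` common neighbours) then
every nonempty set `W` of vertices contains a vertex with at most `(4 r) ^ (s / 2) (t - 1)`
neighbours in `W`; so `χ(G) ≤ (4 r) ^ (s / 2) (t - 1) + 1` and
`log₂ χ(G) ≤ ⌊s / 2⌋ (log₂ r + 2) + log₂ t`.

So the bound of the question holds for all graphs in which, for some `s` polylogarithmic in `r`, any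
`s` vertices have at most quasipolynomially many (in `r`) common neighbours; the graphs may have any
number of vertices and need not be twin-free.

Proof: in a set `C` of vertices of similar degrees, any `s` vertices have at most `4 r τ` common
neighbours in `C` if any `s + 2` vertices have at most `τ` of them (a rank argument for the rows of
the adjacency matrix), and this is iterated.
-/

set_option autoImplicit false

open Finset

namespace Pool.Agent.Results.MP_3bd889_lc.BicliqueFree

theorem result (V : Type) [Fintype V] [DecidableEq V] (G : SimpleGraph V) [DecidableRel G.Adj]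
    (r s t : ℕ) (hr : (G.adjMatrix ℝ).rank ≤ r) (hr2 : 2 ≤ r) (hs : 2 ≤ s) (hst : s ≤ t)
    (hfree : ∀ X : Finset V, X.card = s →
      (univ.filter (fun y => ∀ x ∈ X, G.Adj x y)).card < t) :
    (∀ W : Finset V, W.Nonempty →
      ∃ v ∈ W, (W.filter (fun w => G.Adj v w)).card ≤ (4 * r) ^ (s / 2) * (t - 1)) ∧
    G.Colorable ((4 * r) ^ (s / 2) * (t - 1) + 1) ∧
    Real.logb 2 (G.chromaticNumber.toNat : ℝ) ≤
      ((s / 2 : ℕ) : ℝ) * (Real.logb 2 r + 2) + Real.logb 2 t := by
  classical
  have hdeg : ∀ W : Finset V, W.Nonempty →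
      ∃ v ∈ W, (W.filter (fun w => G.Adj v w)).card ≤ (4 * r) ^ (s / 2) * (t - 1) := by
    refine fun W hW => Pool.TH815.LR.degenerate_of_biclique_free G r s t hr hr2 hs hst ?_ W hW
    intro X Y hX hY
    by_contra hcon
    push Not at hcon
    have h1 : Y ⊆ univ.filter (fun y => ∀ x ∈ X, G.Adj x y) := by
      intro y hy
      rw [mem_filter]
      exact ⟨mem_univ _, fun x hx => hcon x hx y hy⟩
    have h2 := card_le_card h1
    have h3 := hfree X hX
    omega
  have hcol := Pool.TH815.LR.colour_of_degenerate G _ hdeg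
  refine ⟨hdeg, hcol, ?_⟩
  have ht : 0 < t := by omega
  have hr0 : (0 : ℝ) < r := by
    have : 0 < r := by omega
    exact_mod_cast this
  have h1 : G.chromaticNumber.toNat ≤ (4 * r) ^ (s / 2) * t := by
    have h2 : G.chromaticNumber.toNat ≤ (4 * r) ^ (s / 2) * (t - 1) + 1 := by
      have := ENat.toNat_le_toNat hcol.chromaticNumber_le (ENat.natCast_ne_top _)
      rwa [ENat.toNat_natCast] at this
    refine h2.trans ?_
    have h3 : 1 ≤ (4 * r) ^ (s / 2) := Nat.one_le_pow _ _ (by omega)
    obtain ⟨u, rfl⟩ : ∃ u, t = u + 1 := ⟨t - 1, by omega⟩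
    rw [Nat.add_sub_cancel, Nat.mul_succ]
    omega
  have hpos : (0 : ℝ) < ((4 : ℝ) * r) ^ (s / 2) * t := by positivity
  have h4 : ((G.chromaticNumber.toNat : ℕ) : ℝ) ≤ ((4 : ℝ) * r) ^ (s / 2) * t := by
    exact_mod_cast h1
  have h5 : Real.logb 2 (((4 : ℝ) * r) ^ (s / 2) * t) =
      ((s / 2 : ℕ) : ℝ) * (Real.logb 2 r + 2) + Real.logb 2 t := by
    rw [Real.logb_mul (by positivity) (by positivity), Real.logb_pow,
      Real.logb_mul (by norm_num) (by positivity)]
    have : Real.logb 2 4 = 2 := by
      rw [show (4 : ℝ) = 2 ^ (2 : ℕ) by norm_num, Real.logb_pow, Real.logb_self_eq_one (by norm_num)]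
      norm_num
    rw [this]
    ring
  rw [← h5]
  by_cases h0 : G.chromaticNumber.toNat = 0
  · rw [h0, Nat.cast_zero, Real.logb_zero, h5]
    have h6 : 0 ≤ Real.logb 2 (r : ℝ) := Real.logb_nonneg (by norm_num) (by
      have : 1 ≤ r := by omega
      exact_mod_cast this)
    have h7 : 0 ≤ Real.logb 2 (t : ℝ) := Real.logb_nonneg (by norm_num) (by exact_mod_cast ht)
    positivity
  · exact Real.logb_le_logb_of_le (by norm_num) (by
      have : 0 < G.chromaticNumber.toNat := Nat.pos_of_ne_zero h0
      exact_mod_cast this) h4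

end Pool.Agent.Results.MP_3bd889_lc.BicliqueFree
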