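import Pool.Agent.N609.AndRank.Graph

/-!
# Chromatic number and rank for graphs given by the (twisted) meet of finite semilattices

Vertices with the same answer transcript on the diagonal are not adjacent, so that the number of
transcripts of a protocol bounds the chromatic number; the protocol is that of
`MP_e5d384_lc.SemilatticeFunctions`.
-/

set_option autoImplicit false

namespace Pool.Agent.Results.MP_3bd889_lc.MeetGraphs

open Pool.Agent.N609.AndRank

/-- **Chromatic number and rank for twisted meet graphs.** Let the vertices of the finite graph `G`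
be covered by the images of `t` maps `φ i : A i → V`, let `ρ i` and `σ i` be surjective maps from
`A i` onto an arbitrary finite semilattice `P i` (a commutative semigroup in which every element is
idempotent), and let the adjacency of `φ i a` and `φ i b` be an arbitrary function
`f i (ρ i a * σ i b)` of the meet of `ρ i a` and `σ i b`. Then
`log₂ χ(G) ≤ log₂ t + 1152 (log₂ r + 2)^11`, where `r` is the real rank of the adjacency matrix.
For example the vertices can be the partial assignments `a ∈ {0, 1, *}^n` (the subcubes of the
cube) and the adjacency of `a` and `b` any function of their conflicts, i.e. of the two sets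
`{i | a i = 0, b i = 1}` and `{i | a i = 1, b i = 0}`: here `ρ` is the identity, `σ` exchanges `0`
and `1`, and the meet keeps the equal entries. -/
theorem result (V : Type) [Fintype V] (G : SimpleGraph V) [DecidableRel G.Adj] (t : ℕ)
    (A P : Fin t → Type) [∀ i, Fintype (A i)] [∀ i, Fintype (P i)] [∀ i, CommSemigroup (P i)]
    (hP : ∀ i (a : P i), a * a = a) (φ : ∀ i, A i → V) (hφ : ∀ v, ∃ i a, φ i a = v)
    (ρ σ : ∀ i, A i → P i) (hρ : ∀ i, Function.Surjective (ρ i))
    (hσ : ∀ i, Function.Surjective (σ i))
    (f : ∀ i, P i → Bool)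
    (hf : ∀ i a b, G.Adj (φ i a) (φ i b) ↔ f i (ρ i a * σ i b) = true) :
    Real.logb 2 (G.chromaticNumber.toNat : ℝ) ≤
      Real.logb 2 t + 1152 * (Real.logb 2 ((G.adjMatrix ℝ).rank : ℝ) + 2) ^ 11 := by
  classical
  set r := (G.adjMatrix ℝ).rank with hr
  have hprot : ∀ i, Pool.Agent.TH744.LR.Prot (fun a b : A i => f i (ρ i a * σ i b))
      (1152 * (Nat.log 2 (r + 1) + 1) ^ 11) := by
    intro i
    let _ : Min (P i) := ⟨fun a b => a * b⟩
    let _ : SemilatticeInf (P i) := SemilatticeInf.mk' (fun a b => mul_comm a b)
      (fun a b c => mul_assoc a b c) (hP i)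
    have h1 := rank_piece_le G (φ i) (fun a b => f i (ρ i a * σ i b)) (hf i)
    have h2 : (Matrix.of (fun x y : P i => if f i (x * y) then (1 : ℝ) else 0)).rank ≤ r := by
      refine le_trans ?_ h1
      have e : Matrix.of (fun x y : P i => if f i (x * y) then (1 : ℝ) else 0) =
          (Matrix.of (fun a b : A i => if f i (ρ i a * σ i b) then (1 : ℝ) else 0)).submatrix
            (Function.surjInv (hρ i)) (Function.surjInv (hσ i)) := by
        ext x y
        rw [Matrix.submatrix_apply, Matrix.of_apply, Matrix.of_apply,
          Function.surjInv_eq (hρ i), Function.surjInv_eq (hσ i)]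
      rw [e]
      exact Matrix.rank_submatrix_le _ _ _
    obtain ⟨owner, u, v, out, h⟩ := semi_main (P := P i) (f i) (Nat.log 2 (r + 1) + 1) (by omega)
      (lt_of_le_of_lt (Nat.add_le_add_right h2 1)
        (Nat.lt_pow_succ_log_self (by norm_num) (r + 1)))
    exact ⟨owner, fun t a => u t (ρ i a), fun t b => v t (σ i b), out,
      fun a b => h (ρ i a) (σ i b)⟩
  have h1 := logb_chi_le G t _ (colorable_of_prot G t _ A φ hφ _ hf hprot)
  refine h1.trans (add_le_add le_rfl ?_)
  push_cast
  have h2 : (Nat.log 2 (r + 1) : ℝ) + 1 ≤ Real.logb 2 (r : ℝ) + 2 := by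
    rcases Nat.eq_zero_or_pos r with h0 | h0
    · rw [h0]
      norm_num
    · have h3 : (Nat.log 2 (r + 1) : ℝ) ≤ Real.logb 2 ((r + 1 : ℕ) : ℝ) := by
        rw [Real.le_logb_iff_rpow_le (by norm_num) (by positivity), Real.rpow_natCast]
        exact_mod_cast Nat.pow_log_le_self 2 (by omega)
      have hr0 : (0 : ℝ) < r := by exact_mod_cast h0
      have h4 : Real.logb 2 ((r + 1 : ℕ) : ℝ) ≤ Real.logb 2 (2 * (r : ℝ)) := by
        refine Real.logb_le_logb_of_le (by norm_num) (by positivity) ?_
        push_cast
        have : (1 : ℝ) ≤ r := by exact_mod_cast h0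
        linarith
      rw [Real.logb_mul (by norm_num) hr0.ne', Real.logb_self_eq_one (by norm_num)] at h4
      linarith
  gcongr

end Pool.Agent.Results.MP_3bd889_lc.MeetGraphs
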