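import Pool.Agent.N609.Mon.GraphBand

/-!
# A dichotomy for chromatic number and rank of graphs given by the product in finite monoids
-/

set_option autoImplicit false

namespace Pool.Agent.Results.MP_3bd889_lc.MonoidGraphs

open Pool.Agent.N609.Mon

/-- **Chromatic number and rank for product graphs over finite monoids: a dichotomy.** A finite
monoid `S` is tame if every character `S → (ℂ, ·)` has only the values `0` and `1` and the monoid
`{1, a, 0}` with `a² = 0` is not a quotient of `S`. (All monoids generated by idempotents are tame,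
and so are all perfect groups: see `tame_of_idem`, `tame_of_perfect`.) A graph on `V` is a product
graph over the monoids `S j`, `j ∈ J`, if there are surjective maps `ρ, σ : V → ∏ S j` such that
the adjacency of `v` and `w` is an arbitrary function `f (ρ v * σ w)` of the product. (Example:
`V = ∏ S j`, `ρ v = v*` an anti-automorphism or any permutation, `σ w = w`.)

Let the vertices of the finite graph `G` be covered by the images of `t` maps
`φ i : A i → V`, such that the adjacency of `φ i a` and `φ i b` is a function
`f i (ρ i a * σ i b)` of the product in a product of (any number of) tame monoids with at most `K`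
elements, with `ρ i` and `σ i` surjective. Then
`log₂ χ(G) ≤ log₂ t + 3·10^11 ((log₂ K + 1) (log₂ r + 1))^11`, where `r` is the real rank of the
adjacency matrix.

If `S` is not tame, then either every finite graph `G` is an induced subgraph of a product
graph over a power of `S` of rank at most `2 rank G + 2`, or there is a prime `p` such that every
Cayley graph `G` of `(ℤ/p)^n` is an induced subgraph of a product graph over `S^n` of rank at most
`rank G`.

The bound `K` cannot be dropped without proving the whole conjecture: every finite graph `G` is an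
induced subgraph of a product graph over a single finite tame monoid, of rank at most
`rank G + 2`. -/
theorem result :
    (∀ (V : Type) [Fintype V] (G : SimpleGraph V) (t K : ℕ)
      (A : Fin t → Type) [∀ i, Fintype (A i)] (φ : ∀ i, A i → V), (∀ v, ∃ i a, φ i a = v) →
      ∀ (J : Fin t → Type) [∀ i, Fintype (J i)] [∀ i, DecidableEq (J i)]
      (S : ∀ i, J i → Type) [∀ i j, Fintype (S i j)] [∀ i j, Monoid (S i j)],
      (∀ i j, Tame (S i j)) → (∀ i j, Fintype.card (S i j) ≤ K) →
      ∀ (ρ σ : ∀ i, A i → ∀ j, S i j), (∀ i, Function.Surjective (ρ i)) →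
      (∀ i, Function.Surjective (σ i)) → ∀ (f : ∀ i, (∀ j, S i j) → Bool),
      (∀ i a b, G.Adj (φ i a) (φ i b) ↔ f i (ρ i a * σ i b) = true) →
      Real.logb 2 (G.chromaticNumber.toNat : ℝ) ≤ Real.logb 2 t +
        3 * 10 ^ 11 * ((Real.logb 2 K + 1) * (Real.logb 2 (grk G) + 1)) ^ 11) ∧
    (∀ (S : Type) [Fintype S] [Monoid S], ¬ Tame S →
      (∀ (V : Type) [Fintype V] (G : SimpleGraph V),
        ∃ (J : Type) (_ : Fintype J) (W : Type) (_ : Fintype W) (G' : SimpleGraph W),
          IsProductGraph (fun _ : J => S) G' ∧ Nonempty (G ↪g G') ∧ grk G' ≤ 2 * grk G + 2) ∨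
      (∃ (p : ℕ) (_ : Fact p.Prime), ∀ (n : ℕ) (G : SimpleGraph (Fin n → ZMod p)),
        (∀ x y z, G.Adj (x + z) (y + z) ↔ G.Adj x y) →
        ∃ (W : Type) (_ : Fintype W) (G' : SimpleGraph W),
          IsProductGraph (fun _ : Fin n => S) G' ∧ Nonempty (G ↪g G') ∧ grk G' ≤ grk G)) ∧
    (∀ (V : Type) [Fintype V] (G : SimpleGraph V),
      ∃ (S : Type) (_ : Fintype S) (_ : Monoid S) (W : Type) (_ : Fintype W)
        (G' : SimpleGraph W), Tame S ∧ IsProductGraph (fun _ : Unit => S) G' ∧
          Nonempty (G ↪g G') ∧ grk G' ≤ grk G + 2) := by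
  classical
  refine ⟨?_, ?_, ?_⟩
  · intro V _ G t K A _ φ hφ J _ _ S _ _ hT hK ρ σ hρ hσ f hf
    exact graph_main G t K A φ hφ J S hT hK ρ σ hρ hσ f hf
  · intro S _ _ hS
    unfold Tame at hS
    rw [not_and_or, not_not] at hS
    rcases hS with hS | ⟨π, hπ⟩
    · right
      push Not at hS
      obtain ⟨χ, s, h0, h1⟩ := hS
      exact graph_char χ h0 h1
    · left
      intro V _ G
      obtain ⟨G', h1, h2, h3⟩ := graph_nil π hπ G
      exact ⟨V ⊕ V, inferInstance, V ⊕ V → S, inferInstance, G', h1, h2, h3⟩
  · intro V _ G
    exact graph_band G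

end Pool.Agent.Results.MP_3bd889_lc.MonoidGraphs
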