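import Pool.Agent.N609.AndRank.Graph

/-!
# Chromatic number and rank for Boolean products of graphs

A Boolean product of relations `f_1, ..., f_k` on sets `X_1, ..., X_k`: the adjacency of `x` and `y`
is an arbitrary Boolean function of the bits `f_1(x_1, y_1), ..., f_k(x_k, y_k)`.
-/

set_option autoImplicit false

namespace Pool.Agent.Results.MP_3bd889_lc.ProductGraphs

/-- `F` has a deterministic two-party protocol with exactly `c` bits: `t` is the transcript so far,
`owner t` says who speaks, and the answer is a function of the transcript. -/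
def HasProtocol {X Y : Type} (F : X → Y → Bool) (c : ℕ) : Prop :=
  ∃ (owner : List Bool → Bool) (a : List Bool → X → Bool)
      (b : List Bool → Y → Bool) (out : List Bool → Bool),
      ∀ x y, out (Nat.iterate
        (fun t : List Bool => t ++ [if owner t then a t x else b t y]) c []) = F x y

/-- `log₂` of the real rank of the `0/1` matrix of `F` (`0` if the rank is `0`) -/
noncomputable def logRank {X Y : Type} [Fintype X] [Fintype Y] (F : X → Y → Bool) : ℝ :=
  Real.logb 2 ((Matrix.of (fun (x : X) (y : Y) => if F x y then (1 : ℝ) else 0)).rank : ℝ)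

/-- `f(x, y) = u(x) + v(y)` modulo 2 for some one-sided functions `u`, `v` -/
def IsXorType {X Y : Type} (f : X → Y → Bool) : Prop :=
  ∃ (u : X → Bool) (v : Y → Bool), ∀ x y, f x y = xor (u x) (v y)

/-- **Chromatic number and rank for Boolean products.** Let the vertices of the finite graph `G` be
covered by the images of `t` maps `φ j` defined on products `X_{j,1} × ... × X_{j,k_j}` of finite
sets, and let the adjacency of `φ j x` and `φ j y` be a function `g_j` of the bits `f_{j,i}(x_i, y_i)`,
where the `g_j` are arbitrary and the relations `f_{j,i}` are arbitrary relations which are not of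
the form `u(x) + v(y)` modulo 2 and have protocols with at most `K (log₂ rank f_{j,i} + 1)^C` bits
(`C = 0`: with at most `K` bits; this holds for all relations on sets with at most `2^(K-1)`
elements). Then `log₂ χ(G) ≤ log₂ t + 288 (18 + K 3^C) (log₂ r + 1)^(max(C,4)+7)`, where `r` is the
real rank of the adjacency matrix of `G`. -/
theorem result (K C : ℕ) (V : Type) [Fintype V] (G : SimpleGraph V) [DecidableRel G.Adj] (t : ℕ)
    (k : Fin t → ℕ) (X : ∀ j, Fin (k j) → Type) [∀ j i, Fintype (X j i)]
    (φ : ∀ j, (∀ i, X j i) → V) (hφ : ∀ v, ∃ j x, φ j x = v)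
    (f : ∀ j i, X j i → X j i → Bool) (g : ∀ j, (Fin (k j) → Bool) → Bool)
    (hadj : ∀ j x y, G.Adj (φ j x) (φ j y) ↔ g j (fun i => f j i (x i) (y i)) = true)
    (hf : ∀ j i, ¬ IsXorType (f j i))
    (hK : ∀ j i, ∃ c : ℕ, HasProtocol (f j i) c ∧ (c : ℝ) ≤ K * (logRank (f j i) + 1) ^ C) :
    Real.logb 2 (G.chromaticNumber.toNat : ℝ) ≤ Real.logb 2 t +
      288 * (18 + K * 3 ^ C) *
        (Real.logb 2 ((G.adjMatrix ℝ).rank : ℝ) + 1) ^ (max C 4 + 7) := by
  classical
  set B : ℝ := 288 * (18 + K * 3 ^ C) *
        (Real.logb 2 ((G.adjMatrix ℝ).rank : ℝ) + 1) ^ (max C 4 + 7) with hB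
  have hlog : ∀ n m : ℕ, n ≤ m → Real.logb 2 (n : ℝ) ≤ Real.logb 2 (m : ℝ) := by
    intro n m h
    rcases Nat.eq_zero_or_pos n with h0 | h0
    · rw [h0]
      simp only [Nat.cast_zero, Real.logb_zero]
      rcases Nat.eq_zero_or_pos m with h1 | h1
      · rw [h1]; simp
      · exact Real.logb_nonneg (by norm_num) (by exact_mod_cast h1)
    · exact Real.logb_le_logb_of_le (by norm_num) (by exact_mod_cast h0) (by exact_mod_cast h)
  have hnn : ∀ n : ℕ, 0 ≤ Real.logb 2 (n : ℝ) := fun n => by
    have := hlog 0 n (Nat.zero_le n)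
    simpa using this
  have hB0 : 0 ≤ B := by
    have := hnn (G.adjMatrix ℝ).rank
    positivity
  have hprot : ∀ j, Pool.Agent.TH744.LR.Prot
      (fun x y : (∀ i, X j i) => g j (fun i => f j i (x i) (y i))) ⌊B⌋₊ := by
    intro j
    have hcomp : Pool.Agent.TH744.LR.comp
        (fun U : Finset (Fin (k j)) => g j (fun i => decide (i ∈ U)))
        (Pool.Agent.TH744.LR.inner (f j)) = fun x y => g j (fun i => f j i (x i) (y i)) := by
      funext x y
      simp only [Pool.Agent.TH744.LR.comp]
      congr 1
      funext i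
      rw [Bool.eq_iff_iff, decide_eq_true_iff, Finset.mem_filter]
      simp [Pool.Agent.TH744.LR.inner]
    have h := Pool.Agent.N609.AndRank.final (f j) (hf j)
      (fun U : Finset (Fin (k j)) => g j (fun i => decide (i ∈ U))) K C (hK j)
    rw [hcomp] at h
    obtain ⟨q, hq, hqB⟩ := h
    refine hq.mono (Nat.le_floor (hqB.trans ?_))
    have h1 := Pool.Agent.N609.AndRank.rank_piece_le G (φ j)
      (fun x y => g j (fun i => f j i (x i) (y i))) (hadj j)
    have h2 := hlog _ _ h1
    have h3 : Pool.Agent.TH744.LR.logRk (fun x y : (∀ i, X j i) => g j (fun i => f j i (x i) (y i)))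
        ≤ Real.logb 2 ((G.adjMatrix ℝ).rank : ℝ) := h2
    have h4 := Pool.Agent.TH744.LR.logRk_nonneg
      (fun x y : (∀ i, X j i) => g j (fun i => f j i (x i) (y i)))
    rw [hB]
    gcongr
  have h1 := Pool.Agent.N609.AndRank.logb_chi_le G t _
    (Pool.Agent.N609.AndRank.colorable_of_prot G t _ (fun j => ∀ i, X j i) φ hφ _ hadj hprot)
  exact h1.trans (add_le_add le_rfl (Nat.floor_le hB0))

end Pool.Agent.Results.MP_3bd889_lc.ProductGraphs
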